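import Mathlib

set_option autoImplicit false
set_option linter.deprecated false

/-!
A spherically symmetric tree in which every vertex has 10000 children, except that at the depths
in `[4^m, 4^m + m)` every vertex has exactly one child. It is strongly amenable (each subgraph
is finite somewhere or runs through arbitrarily long unbranched stretches), while Bernoulli bond
percolation on its product with the integers has infinitely many infinite clusters for every `p`
in `[1/240, 1/210]`.
-/

open MeasureTheory ProbabilityTheory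

namespace Pool.Agent.Results.MP_7e30a6_pr.StronglyAmenableQ1

/-- Bernoulli product measure on a family of bits. -/
noncomputable def mu (E : Type) (p : NNReal) (hp : p ≤ 1) : Measure (E → Bool) :=
  Measure.infinitePi (fun _ : E => (PMF.bernoulli p hp).toMeasure)

instance (E : Type) (p : NNReal) (hp : p ≤ 1) : IsProbabilityMeasure (mu E p hp) := by
  unfold mu; infer_instance

/-- sigma-algebra generated by the coordinates in `I`. -/
@[reducible] def cs {E : Type} (I : Set E) : MeasurableSpace (E → Bool) :=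
  ⨆ i ∈ I, MeasurableSpace.comap (fun ω : E → Bool => ω i) inferInstance

theorem cs_le {E : Type} (I : Set E) : cs I ≤ (MeasurableSpace.pi : MeasurableSpace (E → Bool)) := by
  refine iSup₂_le fun i _ => ?_
  exact (measurable_pi_apply i).comap_le

theorem cs_mono {E : Type} {I J : Set E} (h : I ⊆ J) : cs I ≤ cs J :=
  biSup_mono (fun _ hi => h hi)

theorem cs_coord {E : Type} {I : Set E} {e : E} (he : e ∈ I) (b : Bool) :
    MeasurableSet[cs I] {ω : E → Bool | ω e = b} := by
  have h : MeasurableSpace.comap (fun ω : E → Bool => ω e) inferInstance ≤ cs I :=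
    le_iSup₂_of_le e he le_rfl
  apply h
  exact ⟨{b}, MeasurableSet.singleton b, by ext; simp⟩

theorem iIndep_coord (E : Type) (p : NNReal) (hp : p ≤ 1) :
    iIndep (fun i : E => MeasurableSpace.comap (fun ω : E → Bool => ω i) inferInstance)
      (mu E p hp) := by
  have := iIndepFun_infinitePi (ι := E) (Ω := fun _ => Bool)
    (P := fun _ => (PMF.bernoulli p hp).toMeasure) (X := fun _ b => b) (by fun_prop)
  exact this

theorem indep_cs {E : Type} (p : NNReal) (hp : p ≤ 1) {I J : Set E} (h : Disjoint I J) :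
    Indep (cs I) (cs J) (mu E p hp) :=
  indep_iSup_of_disjoint (fun i => (measurable_pi_apply i).comap_le) (iIndep_coord E p hp) h

theorem mu_inter {E : Type} (p : NNReal) (hp : p ≤ 1) {I J : Set E} (h : Disjoint I J)
    {A B : Set (E → Bool)} (hA : MeasurableSet[cs I] A) (hB : MeasurableSet[cs J] B) :
    mu E p hp (A ∩ B) = mu E p hp A * mu E p hp B :=
  (Indep_iff _ _ _).1 (indep_cs p hp h) A B hA hB

theorem mu_coord {E : Type} (p : NNReal) (hp : p ≤ 1) (e : E) :
    mu E p hp {ω | ω e = true} = p := by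
  have h := Measure.infinitePi_map_eval (fun _ : E => (PMF.bernoulli p hp).toMeasure) e
  have h2 : mu E p hp {ω | ω e = true} = ((mu E p hp).map (fun x => x e)) {true} := by
    rw [Measure.map_apply (measurable_pi_apply e) (MeasurableSet.singleton _)]
    rfl
  rw [h2]
  unfold mu
  rw [h, PMF.toMeasure_apply_singleton _ _ (MeasurableSet.singleton _), PMF.bernoulli_apply]
  simp

theorem mu_coord_false {E : Type} (p : NNReal) (hp : p ≤ 1) (e : E) :
    mu E p hp {ω | ω e = false} = 1 - p := by
  have h1 : {ω : E → Bool | ω e = false} = {ω | ω e = true}ᶜ := by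
    ext ω; simp
  rw [h1, prob_compl_eq_one_sub, mu_coord]
  exact (cs_le _) _ (cs_coord (Set.mem_singleton e) true)

/-- For a finite family of events that live on pairwise disjoint sets of coordinates, the
probability that all of them fail is the product. -/
theorem mu_biInter {E : Type} (p : NNReal) (hp : p ≤ 1) {ι : Type} (s : Finset ι)
    (I : ι → Set E) (hI : Set.PairwiseDisjoint (s : Set ι) I)
    (A : ι → Set (E → Bool)) (hA : ∀ i ∈ s, MeasurableSet[cs (I i)] (A i)) :
    MeasurableSet[cs (⋃ i ∈ s, I i)] (⋂ i ∈ s, A i) ∧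
    mu E p hp (⋂ i ∈ s, A i) = ∏ i ∈ s, mu E p hp (A i) := by
  classical
  induction s using Finset.induction_on with
  | empty => simp
  | insert a s ha ih =>
    have ih' := ih (hI.subset (by simp)) (fun i hi => hA i (Finset.mem_insert_of_mem hi))
    have h1 : MeasurableSet[cs (⋃ i ∈ insert a s, I i)] (A a) := by
      refine cs_mono ?_ _ (hA a (Finset.mem_insert_self _ _))
      exact Set.subset_biUnion_of_mem (u := I) (Finset.mem_insert_self _ _)
    have h2 : MeasurableSet[cs (⋃ i ∈ insert a s, I i)] (⋂ i ∈ s, A i) := by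
      refine cs_mono ?_ _ ih'.1
      exact Set.biUnion_subset_biUnion_left (by intro x hx; exact Finset.mem_insert_of_mem hx)
    rw [Finset.set_biInter_insert]
    refine ⟨h1.inter h2, ?_⟩
    rw [Finset.prod_insert ha, ← ih'.2]
    refine mu_inter p hp ?_ (hA a (Finset.mem_insert_self _ _)) ih'.1
    rw [Set.disjoint_iUnion₂_right]
    intro i hi
    refine hI (by simp) (by simp [hi]) ?_
    rintro rfl
    exact ha hi

/-- the open subgraph -/
def openGraph {W : Type} (H : SimpleGraph W) (ω : Sym2 W → Bool) : SimpleGraph W :=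
  SimpleGraph.fromEdgeSet {e : Sym2 W | e ∈ H.edgeSet ∧ ω e = true}

theorem openGraph_adj {W : Type} (H : SimpleGraph W) (ω : Sym2 W → Bool) (x y : W) :
    (openGraph H ω).Adj x y ↔ H.Adj x y ∧ ω s(x, y) = true := by
  unfold openGraph
  rw [SimpleGraph.fromEdgeSet_adj]
  constructor
  · rintro ⟨⟨h1, h2⟩, h3⟩
    exact ⟨h1, h2⟩
  · rintro ⟨h1, h2⟩
    exact ⟨⟨h1, h2⟩, h1.ne⟩

/-- event: there is an open self-avoiding path of length `n` from `x` to `y` avoiding `F`. -/
def pathEv {W : Type} (H : SimpleGraph W) : ℕ → W → W → Set W → Set (Sym2 W → Bool)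
  | 0, x, y, _ => {_ω | x = y}
  | n+1, x, y, F => ⋃ z ∈ {z | H.Adj x z ∧ z ∉ insert x F},
      ({ω | ω s(x, z) = true} ∩ pathEv H n z y (insert x F))

/-- edges not touching `F` -/
def offE {W : Type} (F : Set W) : Set (Sym2 W) := {e | ∀ v ∈ e, v ∉ F}

theorem pathEv_meas {W : Type} [Countable W] (H : SimpleGraph W) (n : ℕ) :
    ∀ (x y : W) (F : Set W), x ∉ F → MeasurableSet[cs (offE F)] (pathEv H n x y F) := by
  induction n with
  | zero =>
    intro x y F hx
    unfold pathEv
    exact MeasurableSet.const _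
  | succ n ih =>
    intro x y F hx
    unfold pathEv
    refine MeasurableSet.biUnion (Set.to_countable _) ?_
    intro z hz
    refine MeasurableSet.inter ?_ ?_
    · refine cs_coord ?_ true
      intro v hv
      rw [Sym2.mem_iff] at hv
      rcases hv with rfl | rfl
      · exact hx
      · exact fun h => hz.2 (Set.mem_insert_of_mem _ h)
    · refine cs_mono ?_ _ (ih z y (insert x F) hz.2)
      intro e he v hv h
      exact he v hv (Set.mem_insert_of_mem _ h)

theorem pathEv_bound {W : Type} [Countable W] (H : SimpleGraph W) (p : NNReal) (hp : p ≤ 1)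
    (N : W → Finset W) (hN : ∀ x z, H.Adj x z → z ∈ N x) (h : W → ENNReal) (K : ENNReal)
    (hK : ∀ x, ∑ z ∈ N x, h z ≤ K * h x) (n : ℕ) :
    ∀ (x y : W) (F : Set W), x ∉ F →
      mu (Sym2 W) p hp (pathEv H n x y F) * h y ≤ (p * K) ^ n * h x := by
  classical
  induction n with
  | zero =>
    intro x y F hx
    unfold pathEv
    by_cases hxy : x = y
    · subst hxy
      simp
    · simp [hxy]
  | succ n ih =>
    intro x y F hx
    unfold pathEv
    have hsub : (⋃ z ∈ {z | H.Adj x z ∧ z ∉ insert x F},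
      ({ω | ω s(x, z) = true} ∩ pathEv H n z y (insert x F))) ⊆
      ⋃ z ∈ ((N x).filter (fun z => H.Adj x z ∧ z ∉ insert x F) : Finset W),
      ({ω | ω s(x, z) = true} ∩ pathEv H n z y (insert x F)) := by
      intro ω hω
      simp only [Set.mem_iUnion] at hω ⊢
      obtain ⟨z, hz, hω⟩ := hω
      refine ⟨z, ?_, hω⟩
      rw [Finset.mem_filter]
      exact ⟨hN _ _ hz.1, hz⟩
    have h1 : mu (Sym2 W) p hp (⋃ z ∈ {z | H.Adj x z ∧ z ∉ insert x F},
      ({ω | ω s(x, z) = true} ∩ pathEv H n z y (insert x F))) ≤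
      ∑ z ∈ ((N x).filter (fun z => H.Adj x z ∧ z ∉ insert x F) : Finset W),
        p * mu (Sym2 W) p hp (pathEv H n z y (insert x F)) := by
      refine (measure_mono hsub).trans ((measure_biUnion_finset_le _ _).trans ?_)
      refine Finset.sum_le_sum fun z hz => ?_
      rw [Finset.mem_filter] at hz
      rw [mu_inter p hp (I := {s(x, z)}) (J := offE (insert x F)) ?_
        (cs_coord (Set.mem_singleton _) true) (pathEv_meas H n z y _ hz.2.2), mu_coord]
      rw [Set.disjoint_singleton_left]
      intro hmem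
      exact hmem x (Sym2.mem_mk_left _ _) (Set.mem_insert _ _)
    calc _ ≤ (∑ z ∈ ((N x).filter (fun z => H.Adj x z ∧ z ∉ insert x F) : Finset W),
        p * mu (Sym2 W) p hp (pathEv H n z y (insert x F))) * h y := by gcongr
      _ = ∑ z ∈ ((N x).filter (fun z => H.Adj x z ∧ z ∉ insert x F) : Finset W),
        p * (mu (Sym2 W) p hp (pathEv H n z y (insert x F)) * h y) := by
          rw [Finset.sum_mul]
          refine Finset.sum_congr rfl fun z _ => by ring
      _ ≤ ∑ z ∈ ((N x).filter (fun z => H.Adj x z ∧ z ∉ insert x F) : Finset W),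
        p * ((p * K) ^ n * h z) := by
          refine Finset.sum_le_sum fun z hz => ?_
          rw [Finset.mem_filter] at hz
          exact mul_le_mul' le_rfl (ih z y _ hz.2.2)
      _ ≤ ∑ z ∈ N x, p * ((p * K) ^ n * h z) :=
          Finset.sum_le_sum_of_subset (Finset.filter_subset _ _)
      _ = p * (p * K) ^ n * ∑ z ∈ N x, h z := by
          rw [Finset.mul_sum]
          refine Finset.sum_congr rfl fun z _ => by ring
      _ ≤ p * (p * K) ^ n * (K * h x) := by gcongr; exact hK x
      _ = (p * K) ^ (n + 1) * h x := by ring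

theorem mem_pathEv_of_path {W : Type} (H : SimpleGraph W) (ω : Sym2 W → Bool) {x y : W}
    (w : (openGraph H ω).Walk x y) :
    ∀ (F : Set W), w.IsPath → (∀ v ∈ w.support, v ∉ F) → ω ∈ pathEv H w.length x y F := by
  induction w with
  | nil =>
    intro F _ _
    simp [pathEv]
  | @cons u v t huv w ih =>
    intro F hw hF
    rw [SimpleGraph.Walk.cons_isPath_iff] at hw
    rw [openGraph_adj] at huv
    simp only [SimpleGraph.Walk.length_cons]
    unfold pathEv
    simp only [Set.mem_iUnion]
    refine ⟨v, ?_, huv.2, ih _ hw.1 ?_⟩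
    · refine ⟨huv.1, ?_⟩
      intro hmem
      rcases hmem with h1 | h1
      · exact huv.1.ne h1.symm
      · exact hF v (by simp) h1
    · intro z hz hmem
      rcases hmem with h1 | h1
      · subst h1
        exact hw.2 hz
      · exact hF z (by simp [hz]) h1

theorem reach_subset {W : Type} (H : SimpleGraph W) (x y : W) :
    {ω | (openGraph H ω).Reachable x y} ⊆ ⋃ n, pathEv H n x y ∅ := by
  classical
  intro ω hω
  obtain ⟨w⟩ := hω
  rw [Set.mem_iUnion]
  refine ⟨w.toPath.1.length, mem_pathEv_of_path H ω w.toPath.1 ∅ w.toPath.2 (by simp)⟩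

theorem reach_bound {W : Type} [Countable W] (H : SimpleGraph W) (p : NNReal) (hp : p ≤ 1)
    (N : W → Finset W) (hN : ∀ x z, H.Adj x z → z ∈ N x) (h : W → ENNReal) (K : ENNReal)
    (hK : ∀ x, ∑ z ∈ N x, h z ≤ K * h x) (x y : W) :
    mu (Sym2 W) p hp {ω | (openGraph H ω).Reachable x y} * h y ≤ (1 - p * K)⁻¹ * h x := by
  calc _ ≤ (∑' n, mu (Sym2 W) p hp (pathEv H n x y ∅)) * h y := by
        gcongr
        exact (measure_mono (reach_subset H x y)).trans (measure_iUnion_le _)
    _ = ∑' n, mu (Sym2 W) p hp (pathEv H n x y ∅) * h y := by rw [ENNReal.tsum_mul_right]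
    _ ≤ ∑' n, (p * K) ^ n * h x := by
        refine ENNReal.tsum_le_tsum fun n => ?_
        exact pathEv_bound H p hp N hN h K hK n x y ∅ (by simp)
    _ = (1 - p * K)⁻¹ * h x := by rw [ENNReal.tsum_mul_right, ENNReal.tsum_geometric]

/-- The line graph on the integers. -/
def zLine : SimpleGraph ℤ := SimpleGraph.fromRel (fun m n : ℤ => n = m + 1)

open Classical in
/-- number of children of a vertex at depth `k` -/
noncomputable def br (k : ℕ) : ℕ := if ∃ m, 4 ^ m ≤ k ∧ k < 4 ^ m + m then 1 else 10000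

theorem br_pos (k : ℕ) : 0 < br k := by
  unfold br; split_ifs <;> norm_num

theorem br_le (k : ℕ) : br k ≤ 10000 := by
  unfold br; split_ifs <;> norm_num

/-- valid words -/
def Valid : List ℕ → Prop
  | [] => True
  | a :: w => a < br w.length ∧ Valid w

/-- tree vertices -/
abbrev TV : Type := {w : List ℕ // Valid w}

theorem valid_tail (w : List ℕ) (h : Valid w) : Valid w.tail := by
  cases w with
  | nil => exact h
  | cons a w => exact h.2

/-- parent -/
def par (v : TV) : TV := ⟨v.1.tail, valid_tail _ v.2⟩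

/-- child -/
def chl (v : TV) (a : Fin (br v.1.length)) : TV := ⟨a.1 :: v.1, a.2, v.2⟩

/-- root -/
def rt : TV := ⟨[], trivial⟩

/-- the tree -/
def treeG : SimpleGraph TV := SimpleGraph.fromRel (fun u v => ∃ a, v.1 = a :: u.1)

theorem treeG_adj (u v : TV) :
    treeG.Adj u v ↔ (∃ a, v.1 = a :: u.1) ∨ (∃ a, u.1 = a :: v.1) := by
  unfold treeG
  rw [SimpleGraph.fromRel_adj]
  constructor
  · exact fun h => h.2
  · intro h
    refine ⟨?_, h⟩
    rintro rfl
    rcases h with ⟨a, h⟩ | ⟨a, h⟩ <;>
    · have := congrArg List.length h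
      simp at this

theorem adj_chl (v : TV) (a : Fin (br v.1.length)) : treeG.Adj v (chl v a) := by
  rw [treeG_adj]
  exact Or.inl ⟨a.1, rfl⟩

theorem reach_root (w : List ℕ) : ∀ (h : Valid w), treeG.Reachable rt ⟨w, h⟩ := by
  induction w with
  | nil => intro h; exact SimpleGraph.Reachable.refl _
  | cons a w ih =>
    intro h
    refine (ih h.2).trans ?_
    apply SimpleGraph.Adj.reachable
    rw [treeG_adj]
    exact Or.inl ⟨a, rfl⟩

theorem treeG_connected : treeG.Connected := by
  rw [SimpleGraph.connected_iff_exists_forall_reachable]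
  exact ⟨rt, fun v => reach_root v.1 v.2⟩

theorem valid_replicate (n : ℕ) : Valid (List.replicate n 0) := by
  induction n with
  | zero => trivial
  | succ n ih =>
    rw [List.replicate_succ]
    exact ⟨br_pos _, ih⟩

instance : Infinite TV := by
  refine Infinite.of_injective (fun n : ℕ => (⟨List.replicate n 0, valid_replicate n⟩ : TV)) ?_
  intro a b h
  have := congrArg (fun v : TV => v.1.length) h
  simpa using this

open Classical in
/-- finite set containing all neighbours -/
noncomputable def nbT (v : TV) : Finset TV :=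
  {par v} ∪ Finset.univ.image (chl v)

theorem mem_nbT (v z : TV) (h : treeG.Adj v z) : z ∈ nbT v := by
  classical
  unfold nbT
  rw [treeG_adj] at h
  rw [Finset.mem_union, Finset.mem_singleton, Finset.mem_image]
  rcases h with ⟨a, h⟩ | ⟨a, h⟩
  · right
    have hz := z.2
    rw [h] at hz
    refine ⟨⟨a, hz.1⟩, Finset.mem_univ _, ?_⟩
    apply Subtype.ext
    exact h.symm
  · left
    apply Subtype.ext
    unfold par
    simp [h]

theorem treeG_locFin (v : TV) : (treeG.neighborSet v).Finite :=
  (nbT v).finite_toSet.subset (fun z hz => mem_nbT v z hz)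

/-- weight function -/
noncomputable def wt (x : TV × ℤ) : ℝ := (1 / 100 : ℝ) ^ x.1.1.length * (2 : ℝ) ^ x.2

theorem wt_pos (x : TV × ℤ) : 0 < wt x := by unfold wt; positivity

open Classical in
/-- neighbours in the product -/
noncomputable def nbP (x : TV × ℤ) : Finset (TV × ℤ) :=
  ({(x.1, x.2 + 1)} ∪ {(x.1, x.2 - 1)}) ∪ ({(par x.1, x.2)} ∪
    Finset.univ.image (fun a => (chl x.1 a, x.2)))

theorem mem_nbP (x z : TV × ℤ) (h : (SimpleGraph.boxProd treeG zLine).Adj x z) : z ∈ nbP x := by
  classical
  unfold nbP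
  rw [SimpleGraph.boxProd_adj] at h
  simp only [Finset.mem_union, Finset.mem_singleton, Finset.mem_image]
  rcases h with ⟨h1, h2⟩ | ⟨h1, h2⟩
  · right
    have := mem_nbT _ _ h1
    unfold nbT at this
    rw [Finset.mem_union, Finset.mem_singleton, Finset.mem_image] at this
    rcases this with h3 | ⟨a, ha, h3⟩
    · left; exact Prod.ext h3 h2.symm
    · right; exact ⟨a, ha, Prod.ext h3 h2⟩
  · left
    unfold zLine at h1
    rw [SimpleGraph.fromRel_adj] at h1
    rcases h1.2 with h3 | h3
    · left; exact Prod.ext h2.symm h3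
    · right; exact Prod.ext h2.symm (by simp [h3])

theorem sum_nbP (x : TV × ℤ) :
    ∑ z ∈ nbP x, ENNReal.ofReal (wt z) ≤ ENNReal.ofReal (405 / 2) * ENNReal.ofReal (wt x) := by
  classical
  have hU : ∀ (s t : Finset (TV × ℤ)), ∑ z ∈ s ∪ t, ENNReal.ofReal (wt z) ≤
      ∑ z ∈ s, ENNReal.ofReal (wt z) + ∑ z ∈ t, ENNReal.ofReal (wt z) := by
    intro s t
    rw [← Finset.sum_union_inter]
    exact le_self_add
  have hI : ∑ z ∈ Finset.univ.image (fun a => (chl x.1 a, x.2)), ENNReal.ofReal (wt z) ≤
      ∑ a : Fin (br x.1.1.length), ENNReal.ofReal (wt (chl x.1 a, x.2)) := by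
    exact Finset.sum_image_le_of_nonneg (fun _ _ => zero_le')
  have hI2 : ∑ a : Fin (br x.1.1.length), ENNReal.ofReal (wt (chl x.1 a, x.2)) ≤
      ENNReal.ofReal (100 * wt x) := by
    have : ∀ a : Fin (br x.1.1.length), wt (chl x.1 a, x.2) = 1 / 100 * wt x := by
      intro a
      unfold wt chl
      simp [pow_succ]
      ring
    simp only [this]
    rw [Finset.sum_const, Finset.card_univ, Fintype.card_fin, nsmul_eq_mul,
      ← ENNReal.ofReal_natCast, ← ENNReal.ofReal_mul (by positivity)]
    apply ENNReal.ofReal_le_ofReal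
    have h1 : ((br x.1.1.length : ℕ) : ℝ) ≤ 10000 := by exact_mod_cast br_le _
    have h2 := wt_pos x
    nlinarith
  have hp : wt (par x.1, x.2) ≤ 100 * wt x := by
    unfold wt par
    simp only
    have : (1 / 100 : ℝ) ^ x.1.1.tail.length ≤ 100 * (1 / 100 : ℝ) ^ x.1.1.length := by
      cases h : x.1.1 with
      | nil => norm_num
      | cons a w =>
        simp only [List.tail_cons, List.length_cons, pow_succ]
        linarith
    have h2 : (0 : ℝ) < (2 : ℝ) ^ x.2 := by positivity
    nlinarith
  have h1 : wt (x.1, x.2 + 1) = 2 * wt x := by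
    unfold wt
    simp only
    rw [zpow_add₀ (by norm_num)]
    simp only [zpow_one]
    ring
  have h2 : wt (x.1, x.2 - 1) = 1 / 2 * wt x := by
    unfold wt
    simp only
    rw [zpow_sub₀ (by norm_num)]
    simp only [zpow_one]
    ring
  unfold nbP
  refine (hU _ _).trans ?_
  refine (add_le_add (hU _ _) (hU _ _)).trans ?_
  rw [Finset.sum_singleton, Finset.sum_singleton, Finset.sum_singleton, h1, h2]
  have hwx := wt_pos x
  calc _ ≤ ENNReal.ofReal (2 * wt x) + ENNReal.ofReal (1 / 2 * wt x) +
        (ENNReal.ofReal (100 * wt x) + ENNReal.ofReal (100 * wt x)) := by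
        refine add_le_add le_rfl (add_le_add ?_ (hI.trans hI2))
        exact ENNReal.ofReal_le_ofReal hp
    _ = ENNReal.ofReal (405 / 2) * ENNReal.ofReal (wt x) := by
        rw [← ENNReal.ofReal_add (by positivity) (by positivity),
          ← ENNReal.ofReal_add (by positivity) (by positivity),
          ← ENNReal.ofReal_add (by positivity) (by positivity),
          ← ENNReal.ofReal_mul (by positivity)]
        congr 1
        ring

/-- two-point function bound along the fibre over the root -/
theorem two_pt (p : NNReal) (hp : p ≤ 1) (hp2 : (p : ℝ) ≤ 1 / 210) (m n : ℤ) :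
    mu (Sym2 (TV × ℤ)) p hp
      {ω | (openGraph (SimpleGraph.boxProd treeG zLine) ω).Reachable (rt, m) (rt, n)} ≤
      ENNReal.ofReal (28 * (2 : ℝ) ^ (m - n)) := by
  have h := reach_bound (SimpleGraph.boxProd treeG zLine) p hp nbP mem_nbP
    (fun x => ENNReal.ofReal (wt x)) (ENNReal.ofReal (405 / 2)) sum_nbP (rt, m) (rt, n)
  set P := mu (Sym2 (TV × ℤ)) p hp
      {ω | (openGraph (SimpleGraph.boxProd treeG zLine) ω).Reachable (rt, m) (rt, n)} with hP
  have hPt : P ≠ ⊤ := measure_ne_top _ _
  have h3 : (p : ENNReal) * ENNReal.ofReal (405 / 2) = ENNReal.ofReal ((p : ℝ) * (405 / 2)) := by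
    rw [ENNReal.ofReal_mul (by positivity)]
    simp
  have h4 : (1 : ENNReal) - ENNReal.ofReal ((p : ℝ) * (405 / 2)) =
      ENNReal.ofReal (1 - (p : ℝ) * (405 / 2)) := by
    rw [ENNReal.ofReal_sub _ (by positivity)]
    simp
  have h5 : (0 : ℝ) < 1 - (p : ℝ) * (405 / 2) := by nlinarith
  have hwm : wt (rt, m) = (2 : ℝ) ^ m := by simp [wt, rt]
  have hwn : wt (rt, n) = (2 : ℝ) ^ n := by simp [wt, rt]
  rw [h3, h4, hwm, hwn, ← ENNReal.ofReal_inv_of_pos h5, ← ENNReal.ofReal_mul (by positivity)] at h
  have h6 : P = ENNReal.ofReal P.toReal := (ENNReal.ofReal_toReal hPt).symm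
  rw [h6, ← ENNReal.ofReal_mul (by positivity)] at h
  rw [h6]
  have h7 := (ENNReal.ofReal_le_ofReal_iff (by positivity)).1 h
  apply ENNReal.ofReal_le_ofReal
  rw [zpow_sub₀ (by norm_num)]
  rw [mul_div_assoc', le_div_iff₀ (by positivity)]
  refine h7.trans ?_
  have h8 : (1 - (p : ℝ) * (405 / 2))⁻¹ ≤ 28 := by
    rw [inv_le_comm₀ h5 (by norm_num)]
    nlinarith
  gcongr

/-- Edges of `H` with exactly one endpoint in the finite vertex set `K`. -/
def edgeBd {W : Type} (H : SimpleGraph W) (K : Finset W) : Set (Sym2 W) :=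
  {e | ∃ x y, x ∈ K ∧ y ∉ K ∧ H.Adj x y ∧ e = s(x, y)}

/-- The edge Cheeger constant. -/
noncomputable def cheeger {W : Type} (H : SimpleGraph W) : ℝ :=
  sInf {r : ℝ | ∃ K : Finset W, K.Nonempty ∧ r = ((edgeBd H K).ncard : ℝ) / (K.card : ℝ)}

/-- No subgraph is nonamenable. -/
def StronglyAmenable {V : Type} (G : SimpleGraph V) : Prop :=
  ∀ H : G.Subgraph, ¬ (0 < cheeger H.coe)

theorem cheeger_le {W : Type} (H : SimpleGraph W) (K : Finset W) (hK : K.Nonempty) :
    cheeger H ≤ ((edgeBd H K).ncard : ℝ) / (K.card : ℝ) := by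
  apply csInf_le
  · refine ⟨0, ?_⟩
    rintro r ⟨K, _, rfl⟩
    positivity
  · exact ⟨K, hK, rfl⟩

theorem valid_drop (n : ℕ) : ∀ (w : List ℕ), Valid w → Valid (w.drop n) := by
  induction n with
  | zero => intro w h; simpa using h
  | succ n ih =>
    intro w h
    cases w with
    | nil => simpa using h
    | cons a w =>
      rw [List.drop_succ_cons]
      exact ih w h.2

/-- ancestor at depth `j` -/
def anc (u : TV) (j : ℕ) : TV := ⟨u.1.drop (u.1.length - j), valid_drop _ _ u.2⟩

theorem anc_len (u : TV) (j : ℕ) (hj : j ≤ u.1.length) : (anc u j).1.length = j := by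
  unfold anc
  simp only [List.length_drop]
  omega

theorem anc_suffix (u : TV) (j : ℕ) : (anc u j).1 <:+ u.1 := List.drop_suffix _ _

theorem anc_succ (u : TV) (j : ℕ) (hj : j + 1 ≤ u.1.length) :
    ∃ t, (anc u (j + 1)).1 = t :: (anc u j).1 := by
  unfold anc
  simp only
  have h1 : u.1.length - (j + 1) < u.1.length := by omega
  refine ⟨u.1[u.1.length - (j + 1)], ?_⟩
  rw [List.drop_eq_getElem_cons h1]
  congr 2
  omega

theorem adj_enter (a x x' : TV) (h : treeG.Adj x x') (h1 : ¬ a.1 <:+ x.1) (h2 : a.1 <:+ x'.1) :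
    x' = a := by
  rw [treeG_adj] at h
  rcases h with ⟨t, h⟩ | ⟨t, h⟩
  · rw [h, List.suffix_cons_iff] at h2
    rcases h2 with h2 | h2
    · apply Subtype.ext
      rw [h, h2]
    · exact absurd h2 h1
  · exfalso
    apply h1
    rw [h]
    exact h2.trans (List.suffix_cons _ _)

theorem walk_hits (H : treeG.Subgraph) (a : TV) (x y : H.verts) (w : H.coe.Walk x y) :
    ¬ a.1 <:+ x.1.1 → a.1 <:+ y.1.1 → a ∈ H.verts := by
  induction w with
  | nil => intro h1 h2; exact absurd h2 h1
  | @cons u v t huv w ih =>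
    intro h1 h2
    by_cases h3 : a.1 <:+ v.1.1
    · have h4 : treeG.Adj u.1 v.1 := H.adj_sub huv
      have := adj_enter a u.1 v.1 h4 h1 h3
      rw [← this]
      exact v.2
    · exact ih h3 h2

theorem level_finite (n : ℕ) : {v : TV | v.1.length = n}.Finite := by
  induction n with
  | zero =>
    refine (Set.finite_singleton rt).subset ?_
    intro v hv
    have : v.1 = [] := List.eq_nil_of_length_eq_zero hv
    exact Subtype.ext this
  | succ n ih =>
    refine (ih.biUnion (fun v _ => (nbT v).finite_toSet)).subset ?_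
    intro v hv
    rw [Set.mem_iUnion₂]
    obtain ⟨w, hw⟩ := v
    cases w with
    | nil => simp at hv
    | cons a w =>
      refine ⟨⟨w, hw.2⟩, by simpa using hv, ?_⟩
      apply mem_nbT
      rw [treeG_adj]
      exact Or.inl ⟨a, rfl⟩

theorem level_le_finite (n : ℕ) : {v : TV | v.1.length ≤ n}.Finite := by
  refine ((Set.finite_Iic n).biUnion (fun j _ => level_finite j)).subset ?_
  intro v hv
  rw [Set.mem_iUnion₂]
  exact ⟨v.1.length, hv, rfl⟩

theorem br_run (m j : ℕ) (h1 : 4 ^ m ≤ j) (h2 : j < 4 ^ m + m) : br j = 1 := by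
  unfold br
  rw [if_pos ⟨m, h1, h2⟩]

theorem treeG_stronglyAmenable : StronglyAmenable treeG := by
  classical
  intro H hc
  by_cases hne : H.verts.Nonempty
  · obtain ⟨v0, hv0⟩ := hne
    set S : Set H.verts := {w | H.coe.Reachable ⟨v0, hv0⟩ w} with hS
    by_cases hfin : S.Finite
    · have h1 := cheeger_le H.coe hfin.toFinset ⟨⟨v0, hv0⟩, by simp [hS]⟩
      have h2 : edgeBd H.coe hfin.toFinset = ∅ := by
        rw [Set.eq_empty_iff_forall_notMem]
        rintro e ⟨x, y, hx, hy, hxy, rfl⟩
        apply hy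
        rw [Set.Finite.mem_toFinset] at hx ⊢
        exact SimpleGraph.Reachable.trans hx hxy.reachable
      rw [h2] at h1
      simp only [Set.ncard_empty, Nat.cast_zero, zero_div] at h1
      linarith
    · obtain ⟨m, hm1, hm2, hm3⟩ : ∃ m : ℕ, v0.1.length < 4 ^ m ∧ 2 / cheeger H.coe < m ∧ 0 < m := by
        obtain ⟨m0, hm0⟩ := exists_nat_gt (2 / cheeger H.coe)
        refine ⟨m0 + v0.1.length + 1, ?_, ?_, by omega⟩
        · have h1 : m0 + v0.1.length + 1 < 4 ^ (m0 + v0.1.length + 1) :=
            Nat.lt_pow_self (by norm_num)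
          omega
        · push_cast
          have : (0 : ℝ) ≤ v0.1.length := by positivity
          linarith
      -- a deep vertex in the component
      obtain ⟨u, huS, hu⟩ : ∃ u : H.verts, u ∈ S ∧ 4 ^ m + m < u.1.1.length := by
        by_contra hcon
        push Not at hcon
        apply hfin
        refine Set.Finite.subset ((level_le_finite (4 ^ m + m)).preimage
          (Subtype.val_injective.injOn)) ?_
        intro u hu
        exact hcon u hu
      obtain ⟨w⟩ := huS
      have hanc : ∀ j, 4 ^ m ≤ j → j ≤ 4 ^ m + m → anc u.1 j ∈ H.verts := by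
        intro j hj1 hj2
        refine walk_hits H (anc u.1 j) _ _ w ?_ (anc_suffix _ _)
        intro hsuf
        have h1 := hsuf.length_le
        rw [anc_len _ _ (by omega)] at h1
        simp only at h1
        omega
      have hv : ∀ i : Fin m, anc u.1 (4 ^ m + i.1) ∈ H.verts :=
        fun i => hanc _ (by omega) (by have := i.2; omega)
      set K : Finset H.verts := Finset.univ.image (fun i : Fin m => ⟨anc u.1 (4 ^ m + i.1), hv i⟩)
        with hK
      have hKcard : K.card = m := by
        rw [hK, Finset.card_image_of_injective, Finset.card_univ, Fintype.card_fin]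
        intro i j hij
        have h1 := congrArg (fun v : H.verts => v.1.1.length) hij
        simp only at h1
        rw [anc_len _ _ (by have := i.2; omega), anc_len _ _ (by have := j.2; omega)] at h1
        exact Fin.ext (by omega)
      have hKne : K.Nonempty := by
        rw [← Finset.card_pos, hKcard]; exact hm3
      have hbd : Sym2.map (fun v : H.verts => v.1) '' (edgeBd H.coe K) ⊆
          ({s(anc u.1 (4 ^ m), anc u.1 (4 ^ m - 1)),
            s(anc u.1 (4 ^ m + m - 1), anc u.1 (4 ^ m + m))} : Finset (Sym2 TV)) := by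
        rintro e ⟨e', ⟨x, y, hx, hy, hxy, rfl⟩, rfl⟩
        rw [hK, Finset.mem_image] at hx
        obtain ⟨i, _, hi⟩ := hx
        have hi2 := i.2
        have hxv : x.1 = anc u.1 (4 ^ m + i.1) := by rw [← hi]
        have hxy' : treeG.Adj x.1 y.1 := H.adj_sub hxy
        have hpow : 0 < 4 ^ m := by positivity
        rw [treeG_adj, hxv] at hxy'
        rw [Sym2.map_mk, Finset.mem_coe, Finset.mem_insert, Finset.mem_singleton]
        rcases hxy' with ⟨t, ht⟩ | ⟨t, ht⟩
        · -- child
          have hy2 := y.1.2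
          rw [ht] at hy2
          have ht0 : t = 0 := by
            have := hy2.1
            rw [anc_len _ _ (by omega), br_run m _ (by omega) (by omega)] at this
            omega
          obtain ⟨t', ht'⟩ := anc_succ u.1 (4 ^ m + i.1) (by omega)
          have hv3 := (anc u.1 (4 ^ m + i.1 + 1)).2
          rw [ht'] at hv3
          have ht0' : t' = 0 := by
            have := hv3.1
            rw [anc_len _ _ (by omega), br_run m _ (by omega) (by omega)] at this
            omega
          have hyv : y.1 = anc u.1 (4 ^ m + i.1 + 1) := by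
            apply Subtype.ext
            rw [ht, ht', ht0, ht0']
          by_cases hlast : i.1 + 1 = m
          · right
            rw [hxv, hyv]
            have e1 : 4 ^ m + i.1 = 4 ^ m + m - 1 := by omega
            have e2 : 4 ^ m + i.1 + 1 = 4 ^ m + m := by omega
            rw [e2, e1]
          · exfalso
            apply hy
            rw [hK, Finset.mem_image]
            refine ⟨⟨i.1 + 1, by omega⟩, Finset.mem_univ _, ?_⟩
            apply Subtype.ext
            rw [hyv]
            rfl
        · -- parent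
          have hyv : y.1 = anc u.1 (4 ^ m + i.1 - 1) := by
            obtain ⟨t', ht'⟩ := anc_succ u.1 (4 ^ m + i.1 - 1) (by omega)
            have e1 : 4 ^ m + i.1 - 1 + 1 = 4 ^ m + i.1 := by omega
            rw [e1, ht] at ht'
            apply Subtype.ext
            exact (List.cons.inj ht').2
          by_cases hfirst : i.1 = 0
          · left
            rw [hxv, hyv, hfirst]
            rfl
          · exfalso
            apply hy
            rw [hK, Finset.mem_image]
            refine ⟨⟨i.1 - 1, by omega⟩, Finset.mem_univ _, ?_⟩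
            apply Subtype.ext
            rw [hyv]
            simp only
            congr 1
            omega
      have hn2 : (edgeBd H.coe K).ncard ≤ 2 := by
        rw [← Set.ncard_image_of_injective (edgeBd H.coe K)
          (Sym2.map.injective Subtype.val_injective)]
        refine (Set.ncard_le_ncard hbd (Finset.finite_toSet _)).trans ?_
        rw [Set.ncard_coe_finset]
        exact Finset.card_le_two
      have h1 := cheeger_le H.coe K hKne
      rw [hKcard] at h1
      have hm0 : (0 : ℝ) < m := by exact_mod_cast hm3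
      have h2 : ((edgeBd H.coe K).ncard : ℝ) ≤ 2 := by exact_mod_cast hn2
      rw [le_div_iff₀ hm0] at h1
      rw [div_lt_iff₀ hc] at hm2
      nlinarith
  · have h1 : {r : ℝ | ∃ K : Finset H.verts, K.Nonempty ∧
        r = ((edgeBd H.coe K).ncard : ℝ) / (K.card : ℝ)} = ∅ := by
      rw [Set.eq_empty_iff_forall_notMem]
      rintro r ⟨K, ⟨v, hv⟩, _⟩
      exact hne ⟨v.1, v.2⟩
    unfold cheeger at hc
    rw [h1, Real.sInf_empty] at hc
    exact lt_irrefl _ hc

/-- counting the stretch levels below `n` -/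
theorem count_le (n : ℕ) : 4 * ((Finset.range n).filter (fun k => br k = 1)).card ≤ n := by
  classical
  rcases Nat.eq_zero_or_pos n with hn | hn
  · subst hn; simp
  have hsub : (Finset.range n).filter (fun k => br k = 1) ⊆
      (Finset.range (Nat.log 4 n + 1)).biUnion (fun m => Finset.Ico (4 ^ m) (4 ^ m + m)) := by
    intro k hk
    rw [Finset.mem_filter, Finset.mem_range] at hk
    rw [Finset.mem_biUnion]
    have h1 : ∃ m, 4 ^ m ≤ k ∧ k < 4 ^ m + m := by
      by_contra h
      have := hk.2
      unfold br at this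
      rw [if_neg h] at this
      norm_num at this
    obtain ⟨m, hm1, hm2⟩ := h1
    refine ⟨m, ?_, ?_⟩
    · rw [Finset.mem_range]
      have : m ≤ Nat.log 4 n := by
        apply Nat.le_log_of_pow_le (by norm_num)
        omega
      omega
    · rw [Finset.mem_Ico]; exact ⟨hm1, hm2⟩
  have hcard : ((Finset.range n).filter (fun k => br k = 1)).card ≤
      ∑ m ∈ Finset.range (Nat.log 4 n + 1), m := by
    refine (Finset.card_le_card hsub).trans (Finset.card_biUnion_le.trans ?_)
    refine Finset.sum_le_sum fun m _ => ?_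
    rw [Nat.card_Ico]; omega
  have hL : ∀ L : ℕ, 4 * ∑ m ∈ Finset.range (L + 1), m ≤ 4 ^ L := by
    intro L
    induction L with
    | zero => simp
    | succ L ih =>
      rw [Finset.sum_range_succ, mul_add, pow_succ]
      have : 4 * (L + 1) ≤ 3 * 4 ^ L + (if L = 0 then 1 else 0) := by
        rcases Nat.eq_zero_or_pos L with h | h
        · subst h; simp
        · have : L + 1 ≤ 2 ^ L := Nat.lt_two_pow_self
          have h2 : 2 * 2 ^ L ≤ 4 ^ L := by
            have : (4 : ℕ) ^ L = 2 ^ L * 2 ^ L := by rw [← mul_pow]; norm_num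
            rw [this]
            exact Nat.mul_le_mul_right _ (by
              calc 2 = 2 ^ 1 := rfl
                _ ≤ 2 ^ L := Nat.pow_le_pow_right (by norm_num) h)
          omega
      by_cases hL0 : L = 0
      · subst hL0; simp
      · simp only [hL0, if_false] at this
        omega
  have h2 : 4 ^ Nat.log 4 n ≤ n := Nat.pow_log_le_self 4 (by omega)
  have h3 := hL (Nat.log 4 n)
  omega

/-- ratio -/
noncomputable def ar (k : ℕ) : ℝ := 240 / (br k : ℝ)

theorem ar_pos (k : ℕ) : 0 < ar k := by
  unfold ar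
  have := br_pos k
  positivity

/-- partial products -/
noncomputable def wj (n : ℕ) : ℝ := ∏ k ∈ Finset.range n, ar k

theorem wj_pos (n : ℕ) : 0 < wj n := Finset.prod_pos fun k _ => ar_pos k

theorem wj_eq (n : ℕ) : wj n = (3 / 125 : ℝ) ^ n *
    (10000 : ℝ) ^ ((Finset.range n).filter (fun k => br k = 1)).card := by
  classical
  induction n with
  | zero => simp [wj]
  | succ n ih =>
    unfold wj at ih ⊢
    rw [Finset.prod_range_succ, ih, Finset.range_add_one, Finset.filter_insert]
    by_cases h : br n = 1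
    · rw [if_pos h, Finset.card_insert_of_notMem (by simp), pow_succ, pow_succ]
      unfold ar
      rw [h]
      ring
    · rw [if_neg h, pow_succ]
      have h2 : br n = 10000 := by
        unfold br at h ⊢
        split_ifs at h ⊢ with h1
        · exact absurd rfl h
        · rfl
      unfold ar
      rw [h2]
      push_cast
      ring

theorem wj_le (n : ℕ) : wj n ≤ (6 / 25 : ℝ) ^ n := by
  rw [wj_eq]
  have h1 : (10000 : ℝ) ^ ((Finset.range n).filter (fun k => br k = 1)).card ≤ (10 : ℝ) ^ n := by
    calc (10000 : ℝ) ^ ((Finset.range n).filter (fun k => br k = 1)).card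
        = (10 : ℝ) ^ (4 * ((Finset.range n).filter (fun k => br k = 1)).card) := by
          rw [pow_mul]; norm_num
      _ ≤ (10 : ℝ) ^ n := pow_le_pow_right₀ (by norm_num) (count_le n)
  calc _ ≤ (3 / 125 : ℝ) ^ n * (10 : ℝ) ^ n := by gcongr
    _ = (6 / 25 : ℝ) ^ n := by rw [← mul_pow]; norm_num

theorem wj_summable : Summable wj :=
  Summable.of_nonneg_of_le (fun n => (wj_pos n).le) wj_le
    (summable_geometric_of_lt_one (by norm_num) (by norm_num))

/-- potential -/
noncomputable def Cp (j : ℕ) : ℝ := (∑' i, wj (i + j)) / wj j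

theorem Cp_rec (j : ℕ) : Cp j = 1 + ar j * Cp (j + 1) := by
  unfold Cp
  have hs : Summable (fun i => wj (i + j)) := (summable_nat_add_iff j).2 wj_summable
  have h1 : ∑' i, wj (i + j) = wj j + ∑' i, wj (i + (j + 1)) := by
    rw [hs.tsum_eq_zero_add]
    congr 1
    · simp
    · refine tsum_congr fun i => ?_
      congr 1
      ring
  have h2 : wj (j + 1) = wj j * ar j := by
    unfold wj; rw [Finset.prod_range_succ]
  have h3 := wj_pos j
  have h4 := ar_pos j
  rw [h1, h2]
  field_simp

theorem Cp_nonneg (j : ℕ) : 0 ≤ Cp j := by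
  unfold Cp
  refine div_nonneg (tsum_nonneg fun i => (wj_pos _).le) (wj_pos _).le

theorem Cp_one (j : ℕ) : 1 ≤ Cp j := by
  rw [Cp_rec]
  have := Cp_nonneg (j + 1)
  have := ar_pos j
  nlinarith [mul_nonneg this.le (Cp_nonneg (j+1))]

/-- configurations -/
abbrev Om : Type := Sym2 (TV × ℤ) → Bool

/-- the edge of slice `n` from `v` to its child number `a` -/
def ed (n : ℤ) (v : TV) (a : Fin (br v.1.length)) : Sym2 (TV × ℤ) := s((v, n), (chl v a, n))

/-- event: `v` is connected in slice `n` by an open descending path to depth `|v| + k` -/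
noncomputable def down (n : ℤ) : ℕ → TV → Set Om
  | 0, _ => Set.univ
  | k + 1, v => ⋃ a : Fin (br v.1.length), ({ω | ω (ed n v a) = true} ∩ down n k (chl v a))

/-- edges of slice `n` below `v` -/
def subE (n : ℤ) (v : TV) : Set (Sym2 (TV × ℤ)) :=
  {e | ∃ (u : TV) (a : Fin (br u.1.length)), v.1 <:+ u.1 ∧ e = ed n u a}

theorem ed_inj (n n' : ℤ) (u u' : TV) (a : Fin (br u.1.length)) (a' : Fin (br u'.1.length))
    (h : ed n u a = ed n' u' a') : n = n' ∧ u = u' ∧ a.1 = a'.1 := by
  unfold ed at h
  rw [Sym2.eq_iff] at h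
  rcases h with ⟨h1, h2⟩ | ⟨h1, h2⟩
  · have h3 := (Prod.ext_iff.1 h1).1
    have h4 := (Prod.ext_iff.1 h1).2
    have h5 := (Prod.ext_iff.1 h2).1
    simp only at h3 h4 h5
    have h6 := congrArg Subtype.val h5
    unfold chl at h6
    simp only [List.cons.injEq] at h6
    exact ⟨h4, h3, h6.1⟩
  · exfalso
    have h3 := (Prod.ext_iff.1 h1).1
    have h5 := (Prod.ext_iff.1 h2).1
    simp only at h3 h5
    have h6 := congrArg (fun v : TV => v.1.length) h3
    have h7 := congrArg (fun v : TV => v.1.length) h5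
    unfold chl at h6 h7
    simp only [List.length_cons] at h6 h7
    omega

theorem down_meas (n : ℤ) (k : ℕ) : ∀ v : TV, MeasurableSet[cs (subE n v)] (down n k v) := by
  induction k with
  | zero => intro v; unfold down; exact MeasurableSet.univ
  | succ k ih =>
    intro v
    unfold down
    refine MeasurableSet.iUnion fun a => MeasurableSet.inter ?_ ?_
    · exact cs_coord (show ed n v a ∈ subE n v from ⟨v, a, List.suffix_rfl, rfl⟩) true
    · refine cs_mono ?_ _ (ih (chl v a))
      rintro e ⟨u, b, hu, rfl⟩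
      exact ⟨u, b, (List.suffix_cons _ _).trans hu, rfl⟩

/-- coordinates used by child `a` -/
def chE (n : ℤ) (v : TV) (a : Fin (br v.1.length)) : Set (Sym2 (TV × ℤ)) :=
  insert (ed n v a) (subE n (chl v a))

theorem chE_disj (n : ℤ) (v : TV) :
    Set.PairwiseDisjoint (((Finset.univ : Finset (Fin (br v.1.length))) : Set _)) (chE n v) := by
  intro a _ b _ hab
  rw [Function.onFun, Set.disjoint_left]
  intro e he1 he2
  have hne : a.1 ≠ b.1 := fun h => hab (Fin.ext h)
  rcases he1 with he1 | ⟨u, c, hu, he1⟩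
  · rcases he2 with he2 | ⟨u', c', hu', he2⟩
    · rw [he1] at he2
      exact hne (ed_inj _ _ _ _ _ _ he2).2.2
    · rw [he1] at he2
      have h1 := (ed_inj _ _ _ _ _ _ he2).2.1
      rw [← h1] at hu'
      have := hu'.length_le
      unfold chl at this
      simp at this
  · rcases he2 with he2 | ⟨u', c', hu', he2⟩
    · rw [he1] at he2
      have h1 := (ed_inj _ _ _ _ _ _ he2).2.1
      rw [h1] at hu
      have := hu.length_le
      unfold chl at this
      simp at this
    · rw [he1] at he2
      have h1 := (ed_inj _ _ _ _ _ _ he2).2.1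
      rw [← h1] at hu'
      have h2 : (chl v a).1 = (chl v b).1 := by
        have h3 := List.suffix_of_suffix_length_le hu hu' (by simp [chl])
        exact h3.eq_of_length (by simp [chl])
      unfold chl at h2
      simp only [List.cons.injEq] at h2
      exact hne h2.1

theorem down_succ_prob (p : NNReal) (hp : p ≤ 1) (n : ℤ) (k : ℕ) (v : TV) :
    (mu _ p hp (down n (k + 1) v)).toReal =
      1 - ∏ a : Fin (br v.1.length), (1 - (p : ℝ) * (mu _ p hp (down n k (chl v a))).toReal) := by
  classical
  set A : Fin (br v.1.length) → Set Om := fun a =>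
    {ω | ω (ed n v a) = true} ∩ down n k (chl v a) with hA
  have hAm : ∀ a, MeasurableSet[cs (chE n v a)] (A a) := by
    intro a
    refine MeasurableSet.inter (cs_coord (Set.mem_insert _ _) true) ?_
    exact cs_mono (Set.subset_insert _ _) _ (down_meas n k _)
  have hAm' : ∀ a, MeasurableSet (A a) := fun a => cs_le _ _ (hAm a)
  have hprob : ∀ a, mu _ p hp (A a) = p * mu _ p hp (down n k (chl v a)) := by
    intro a
    rw [hA]
    simp only
    rw [mu_inter p hp (I := {ed n v a}) (J := subE n (chl v a)) ?_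
      (cs_coord (Set.mem_singleton _) true) (down_meas n k _), mu_coord]
    rw [Set.disjoint_singleton_left]
    rintro ⟨u, c, hu, he⟩
    have h1 := (ed_inj _ _ _ _ _ _ he).2.1
    rw [← h1] at hu
    have := hu.length_le
    unfold chl at this
    simp at this
  have hcompl : (down n (k + 1) v)ᶜ = ⋂ a ∈ (Finset.univ : Finset (Fin (br v.1.length))), (A a)ᶜ := by
    unfold down
    rw [Set.compl_iUnion]
    simp [hA]
  have h1 := (mu_biInter p hp Finset.univ (chE n v) (chE_disj n v) (fun a => (A a)ᶜ)
    (fun a _ => (hAm a).compl)).2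
  rw [← hcompl] at h1
  have hdm : MeasurableSet (down n (k + 1) v) := cs_le _ _ (down_meas n (k + 1) v)
  have h2 := prob_compl_eq_one_sub (μ := mu _ p hp) hdm
  rw [h1] at h2
  have h3 : (mu _ p hp (down n (k + 1) v)).toReal =
      1 - (1 - mu _ p hp (down n (k + 1) v)).toReal := by
    rw [ENNReal.toReal_sub_of_le prob_le_one ENNReal.one_ne_top]
    simp
  rw [h3, ← h2, ENNReal.toReal_prod]
  congr 1
  refine Finset.prod_congr rfl fun a _ => ?_
  rw [prob_compl_eq_one_sub (hAm' a), hprob,
    ENNReal.toReal_sub_of_le ?_ ENNReal.one_ne_top, ENNReal.toReal_mul]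
  · simp
  · calc (p : ENNReal) * mu _ p hp (down n k (chl v a)) ≤ 1 * 1 := by
          gcongr
          · exact_mod_cast hp
          · exact prob_le_one
      _ = 1 := by ring

theorem one_sub_pow_le (x : ℝ) (hx0 : 0 ≤ x) (hx1 : x ≤ 1) (b : ℕ) :
    (1 - x) ^ b * (1 + b * x) ≤ 1 := by
  calc (1 - x) ^ b * (1 + b * x) ≤ (1 - x) ^ b * (1 + x) ^ b := by
        have h1 : 0 ≤ (1 - x) ^ b := pow_nonneg (by linarith) b
        have h2 := one_add_mul_le_pow (a := x) (by linarith) b
        gcongr
    _ = (1 - x ^ 2) ^ b := by rw [← mul_pow]; ring_nf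
    _ ≤ 1 := pow_le_one₀ (by nlinarith) (by nlinarith)

theorem down_lower (p : NNReal) (hp : p ≤ 1) (hp1 : (1 / 240 : ℝ) ≤ p) (n : ℤ) (k : ℕ) :
    ∀ v : TV, 1 / Cp v.1.length ≤ (mu _ p hp (down n k v)).toReal := by
  induction k with
  | zero =>
    intro v
    unfold down
    rw [measure_univ, ENNReal.toReal_one, div_le_one (by linarith [Cp_one v.1.length])]
    exact Cp_one _
  | succ k ih =>
    intro v
    rw [down_succ_prob]
    set b := br v.1.length with hb
    have hbpos : 0 < b := br_pos _
    set x : ℝ := (p : ℝ) / Cp (v.1.length + 1) with hx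
    have hC := Cp_one (v.1.length + 1)
    have hp0 : (0 : ℝ) ≤ p := p.2
    have hpr : (p : ℝ) ≤ 1 := by exact_mod_cast hp
    have hx0 : 0 ≤ x := by positivity
    have hx1 : x ≤ 1 := by rw [hx, div_le_one (by linarith)]; linarith
    have h1 : ∏ a : Fin b, (1 - (p : ℝ) * (mu _ p hp (down n k (chl v a))).toReal) ≤
        (1 - x) ^ b := by
      calc _ ≤ ∏ _a : Fin b, (1 - x) := by
            refine Finset.prod_le_prod ?_ ?_
            · intro a _
              have h2 : (mu _ p hp (down n k (chl v a))).toReal ≤ 1 := by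
                have := (ENNReal.toReal_le_toReal (measure_ne_top _ _) ENNReal.one_ne_top).2
                  (prob_le_one (μ := mu _ p hp) (s := down n k (chl v a)))
                simpa using this
              have h3 : 0 ≤ (mu _ p hp (down n k (chl v a))).toReal := ENNReal.toReal_nonneg
              nlinarith
            · intro a _
              have h2 := ih (chl v a)
              have h3 : (chl v a).1.length = v.1.length + 1 := rfl
              rw [h3] at h2
              have h4 : x ≤ (p : ℝ) * (mu _ p hp (down n k (chl v a))).toReal := by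
                rw [hx, div_eq_mul_one_div]
                gcongr
              linarith
        _ = (1 - x) ^ b := by simp
    have h2 := one_sub_pow_le x hx0 hx1 b
    have hbx : 0 ≤ (b : ℝ) * x := by positivity
    have h3 : (1 - x) ^ b ≤ 1 / (1 + b * x) := by
      rw [le_div_iff₀ (by linarith)]
      exact h2
    have h4 : 1 / Cp v.1.length ≤ 1 - 1 / (1 + b * x) := by
      have hCr := Cp_rec v.1.length
      have hCv := Cp_one v.1.length
      have hbr : (0 : ℝ) < b := by exact_mod_cast hbpos
      have hxpos : 0 < x := by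
        rw [hx]; apply div_pos <;> linarith
      have hbx' : 0 < (b : ℝ) * x := by positivity
      have h5 : 1 - 1 / (1 + b * x) = (b * x) / (1 + b * x) := by
        field_simp
        ring
      rw [h5, div_le_div_iff₀ (by linarith) (by linarith)]
      have h6 : 1 ≤ b * x * (ar v.1.length * Cp (v.1.length + 1)) := by
        rw [hx]
        unfold ar
        rw [← hb]
        have : (b : ℝ) * ((p : ℝ) / Cp (v.1.length + 1)) * (240 / (b : ℝ) * Cp (v.1.length + 1)) =
            240 * p := by
          field_simp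
        rw [this]
        linarith
      rw [hCr]
      nlinarith
    linarith

/-- product graph -/
abbrev PG : SimpleGraph (TV × ℤ) := SimpleGraph.boxProd treeG zLine

theorem down_reach (n : ℤ) (ω : Om) (k : ℕ) : ∀ v : TV, ω ∈ down n k v →
    ∃ u : TV, u.1.length = v.1.length + k ∧ (openGraph PG ω).Reachable (v, n) (u, n) := by
  induction k with
  | zero => intro v _; exact ⟨v, rfl, SimpleGraph.Reachable.refl _⟩
  | succ k ih =>
    intro v hω
    unfold down at hω
    rw [Set.mem_iUnion] at hω
    obtain ⟨a, h1, h2⟩ := hω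
    obtain ⟨u, hu1, hu2⟩ := ih _ h2
    refine ⟨u, ?_, ?_⟩
    · rw [hu1]; unfold chl; simp; omega
    · refine SimpleGraph.Reachable.trans ?_ hu2
      apply SimpleGraph.Adj.reachable
      rw [openGraph_adj, SimpleGraph.boxProd_adj]
      exact ⟨Or.inl ⟨adj_chl v a, rfl⟩, h1⟩

/-- the event that the root percolates downward in slice `n` -/
noncomputable def Bev (n : ℤ) : Set Om := ⋂ k, down n k rt

theorem Bev_meas (n : ℤ) : MeasurableSet[cs (subE n rt)] (Bev n) :=
  MeasurableSet.iInter fun k => down_meas n k rt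

theorem subE_disj (n n' : ℤ) (h : n ≠ n') : Disjoint (subE n rt) (subE n' rt) := by
  rw [Set.disjoint_left]
  rintro e ⟨u, a, _, he⟩ ⟨u', a', _, he'⟩
  rw [he] at he'
  exact h (ed_inj _ _ _ _ _ _ he').1

theorem down_anti (n : ℤ) (k : ℕ) : ∀ v : TV, down n (k + 1) v ⊆ down n k v := by
  induction k with
  | zero => intro v; exact Set.subset_univ _
  | succ k ih =>
    intro v ω hω
    unfold down at hω ⊢
    rw [Set.mem_iUnion] at hω ⊢
    obtain ⟨a, h1, h2⟩ := hω
    exact ⟨a, h1, ih _ h2⟩

theorem Bev_prob (p : NNReal) (hp : p ≤ 1) (hp1 : (1 / 240 : ℝ) ≤ p) (n : ℤ) :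
    ENNReal.ofReal (1 / Cp 0) ≤ mu _ p hp (Bev n) := by
  have hanti : Antitone (fun k => down n k rt) := antitone_nat_of_succ_le (fun k => down_anti n k rt)
  have h1 := tendsto_measure_iInter_atTop (μ := mu _ p hp) (s := fun k => down n k rt)
    (fun k => (cs_le _ _ (down_meas n k rt)).nullMeasurableSet) hanti
    ⟨0, measure_ne_top _ _⟩
  refine ge_of_tendsto h1 (Filter.Eventually.of_forall fun k => ?_)
  have h2 := down_lower p hp hp1 n k rt
  have h3 : (rt : TV).1.length = 0 := rfl
  rw [h3] at h2
  exact ENNReal.ofReal_le_of_le_toReal h2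

theorem Bev_inf (n : ℤ) (ω : Om) (hω : ω ∈ Bev n) :
    ((openGraph PG ω).connectedComponentMk (rt, n)).supp.Infinite := by
  have h1 : ∀ k : ℕ, ∃ x ∈ ((openGraph PG ω).connectedComponentMk (rt, n)).supp,
      x.1.1.length = k := by
    intro k
    obtain ⟨u, hu1, hu2⟩ := down_reach n ω k rt (Set.mem_iInter.1 hω k)
    refine ⟨(u, n), ?_, ?_⟩
    · rw [SimpleGraph.ConnectedComponent.mem_supp_iff, SimpleGraph.ConnectedComponent.eq]
      exact hu2.symm
    · have h0 : (rt : TV).1.length = 0 := rfl
      simp only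
      rw [hu1, h0, zero_add]
  intro hfin
  have h2 := hfin.image (fun x : TV × ℤ => x.1.1.length)
  apply Set.infinite_univ (α := ℕ)
  refine h2.subset ?_
  intro k _
  obtain ⟨x, hx, hk⟩ := h1 k
  exact ⟨x, hx, hk⟩

theorem Bev_often (p : NNReal) (hp : p ≤ 1) (hp1 : (1 / 240 : ℝ) ≤ p) :
    ∀ᵐ ω ∂(mu _ p hp), {j : ℕ | ω ∈ Bev ((j : ℤ) ^ 2)}.Infinite := by
  classical
  have hinj : ∀ i j : ℕ, i ≠ j → ((i : ℤ) ^ 2) ≠ ((j : ℤ) ^ 2) := by
    intro i j hij h
    apply hij
    have h2 : (i ^ 2 : ℕ) = j ^ 2 := by exact_mod_cast h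
    exact Nat.pow_left_injective (by norm_num) h2
  have hm : ∀ j : ℕ, MeasurableSet (Bev ((j : ℤ) ^ 2)) := fun j => cs_le _ _ (Bev_meas _)
  have hind : iIndepSet (fun j : ℕ => Bev ((j : ℤ) ^ 2)) (mu _ p hp) := by
    rw [iIndepSet_iff_meas_biInter hm]
    intro s
    refine (mu_biInter p hp s (fun j => subE ((j : ℤ) ^ 2) rt) ?_ _ (fun j _ => Bev_meas _)).2
    intro i _ j _ hij
    exact subE_disj _ _ (hinj i j hij)
  have hsum : ∑' j : ℕ, mu _ p hp (Bev ((j : ℤ) ^ 2)) = ⊤ := by
    have hc : (0 : ENNReal) < ENNReal.ofReal (1 / Cp 0) := by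
      rw [ENNReal.ofReal_pos]
      have := Cp_one 0
      positivity
    rw [eq_top_iff, ← ENNReal.tsum_const_eq_top_of_ne_zero (α := ℕ) hc.ne']
    exact ENNReal.tsum_le_tsum fun j => Bev_prob p hp hp1 _
  have h1 := measure_limsup_eq_one hm hind hsum
  have h2 : ∀ᵐ ω ∂(mu _ p hp), ω ∈ Filter.limsup (fun j : ℕ => Bev ((j : ℤ) ^ 2)) Filter.atTop :=
    (mem_ae_iff_prob_eq_one (MeasurableSet.measurableSet_limsup hm)).2 h1
  filter_upwards [h2] with ω hω
  rw [Filter.mem_limsup_iff_frequently_mem] at hω
  exact Nat.frequently_atTop_iff_infinite.1 hω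

theorem pairs_finite (p : NNReal) (hp : p ≤ 1) (hp2 : (p : ℝ) ≤ 1 / 210) :
    ∀ᵐ ω ∂(mu _ p hp), {q : ℕ × ℕ | q.1 < q.2 ∧
      (openGraph PG ω).Reachable (rt, ((q.1 : ℤ) ^ 2)) (rt, ((q.2 : ℤ) ^ 2))}.Finite := by
  set s : ℕ × ℕ → Set Om := fun q => {ω | q.1 < q.2 ∧
      (openGraph PG ω).Reachable (rt, ((q.1 : ℤ) ^ 2)) (rt, ((q.2 : ℤ) ^ 2))} with hs
  have hb : ∀ q : ℕ × ℕ, mu _ p hp (s q) ≤
      ENNReal.ofReal (28 * ((1 / 2 : ℝ) ^ q.1 * (1 / 2 : ℝ) ^ q.2)) := by
    intro q
    by_cases hq : q.1 < q.2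
    · have h1 : s q ⊆ {ω | (openGraph PG ω).Reachable (rt, ((q.1 : ℤ) ^ 2)) (rt, ((q.2 : ℤ) ^ 2))} :=
        fun ω hω => hω.2
      refine (measure_mono h1).trans ((two_pt p hp hp2 _ _).trans ?_)
      apply ENNReal.ofReal_le_ofReal
      have h2 : (2 : ℝ) ^ (((q.1 : ℤ) ^ 2) - ((q.2 : ℤ) ^ 2)) ≤
          (2 : ℝ) ^ (-((q.1 : ℤ) + (q.2 : ℤ))) := by
        apply zpow_le_zpow_right₀ (by norm_num)
        have h3 : (q.1 : ℤ) + 1 ≤ q.2 := by exact_mod_cast hq
        have h4 : (0 : ℤ) ≤ q.1 := by positivity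
        nlinarith
      have h5 : (2 : ℝ) ^ (-((q.1 : ℤ) + (q.2 : ℤ))) = (1 / 2 : ℝ) ^ q.1 * (1 / 2 : ℝ) ^ q.2 := by
        rw [← pow_add, zpow_neg, one_div, inv_pow]
        congr 1
      rw [← h5]
      linarith
    · have : s q = ∅ := by
        rw [Set.eq_empty_iff_forall_notMem]
        intro ω hω
        exact hq hω.1
      rw [this]
      simp
  have hsum : ∑' q, mu _ p hp (s q) ≠ ⊤ := by
    have hsm : Summable (fun q : ℕ × ℕ => 28 * ((1 / 2 : ℝ) ^ q.1 * (1 / 2 : ℝ) ^ q.2)) := by
      apply Summable.mul_left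
      exact Summable.mul_of_nonneg (summable_geometric_of_lt_one (by norm_num) (by norm_num))
        (summable_geometric_of_lt_one (by norm_num) (by norm_num))
        (fun n => by positivity) (fun n => by positivity)
    refine ne_top_of_le_ne_top ?_ (ENNReal.tsum_le_tsum hb)
    exact hsm.tsum_ofReal_ne_top
  exact ae_finite_setOf_mem hsum

theorem main_as (p : NNReal) (hp : p ≤ 1) (hp1 : (1 / 240 : ℝ) ≤ p) (hp2 : (p : ℝ) ≤ 1 / 210) :
    ∀ᵐ ω ∂(mu (Sym2 (TV × ℤ)) p hp),
      {C : (openGraph PG ω).ConnectedComponent | C.supp.Infinite}.Infinite := by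
  filter_upwards [Bev_often p hp hp1, pairs_finite p hp hp2] with ω h1 h2
  obtain ⟨M, hM⟩ : ∃ M : ℕ, ∀ q : ℕ × ℕ, q.1 < q.2 →
      (openGraph PG ω).Reachable (rt, ((q.1 : ℤ) ^ 2)) (rt, ((q.2 : ℤ) ^ 2)) → q.1 < M := by
    obtain ⟨M, hM⟩ := (h2.image (fun q => q.1)).bddAbove
    refine ⟨M + 1, fun q hq1 hq2 => ?_⟩
    have := hM (Set.mem_image_of_mem _ (show q ∈ {q : ℕ × ℕ | q.1 < q.2 ∧
      (openGraph PG ω).Reachable (rt, ((q.1 : ℤ) ^ 2)) (rt, ((q.2 : ℤ) ^ 2))} from ⟨hq1, hq2⟩))
    have h4 : q.1 ≤ M := this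
    omega
  have h3 : ({j : ℕ | ω ∈ Bev ((j : ℤ) ^ 2)} \ {j | j < M}).Infinite :=
    h1.diff (Set.finite_lt_nat M)
  refine Set.infinite_of_injOn_mapsTo
    (f := fun j : ℕ => (openGraph PG ω).connectedComponentMk (rt, ((j : ℤ) ^ 2))) ?_ ?_ h3
  · intro i hi j hj hij
    by_contra hne
    simp only [SimpleGraph.ConnectedComponent.eq] at hij
    rcases lt_or_gt_of_ne hne with hlt | hlt
    · exact hi.2 (hM (i, j) hlt hij)
    · exact hj.2 (hM (j, i) hlt hij.symm)
  · intro j hj
    exact Bev_inf _ ω hj.1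

/-- There are a strongly amenable graph `G` (infinite, connected, locally finite) and `p₁ < p₂`
such that for every `p` in `[p₁, p₂]` Bernoulli(`p`) bond percolation on `G × ℤ` has almost surely
infinitely many infinite clusters. -/
theorem result :
    ∃ (V : Type) (G : SimpleGraph V), Infinite V ∧ G.Connected ∧
      (∀ v, (G.neighborSet v).Finite) ∧ StronglyAmenable G ∧
      ∃ p₁ p₂ : NNReal, p₁ < p₂ ∧ p₂ ≤ 1 ∧
        ∀ (p : NNReal) (hp : p ≤ 1), p₁ ≤ p → p ≤ p₂ →
          ∀ᵐ ω ∂(MeasureTheory.Measure.infinitePi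
              (fun _ : Sym2 (V × ℤ) => (PMF.bernoulli p hp).toMeasure)),
            {C : (openGraph (SimpleGraph.boxProd G zLine) ω).ConnectedComponent |
              C.supp.Infinite}.Infinite := by
  refine ⟨TV, treeG, inferInstance, treeG_connected, treeG_locFin, treeG_stronglyAmenable,
    1 / 240, 1 / 210, ?_, ?_, ?_⟩
  · rw [← NNReal.coe_lt_coe]; push_cast; norm_num
  · rw [← NNReal.coe_le_coe]; push_cast; norm_num
  · intro p hp h1 h2
    have h1' : (1 / 240 : ℝ) ≤ p := by
      have := NNReal.coe_le_coe.2 h1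
      push_cast at this
      exact this
    have h2' : (p : ℝ) ≤ 1 / 210 := by
      have := NNReal.coe_le_coe.2 h2
      push_cast at this
      exact this
    exact main_as p hp h1' h2'

end Pool.Agent.Results.MP_7e30a6_pr.StronglyAmenableQ1
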